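import Pool.Agent.Helper50.Tm.Goals2
import Pool.Agent.Helper61.Nm.ARF
import Pool.Agent.Helper67.Nm.EXT1
import Pool.Agent.Helper15.Nm.Ext2

/-!
# ADJ: units can be replaced by one-units
-/

set_option autoImplicit false

open Pool.Agent.Helper40.Nm Pool.Agent.Helper61.Nm Pool.Agent.Helper50.Tm

namespace Pool.Agent.Helper64.Tm

theorem extT : EXT := by
  intro R M S E _ _ _ _ _ _ _ _ _ _ _ _ _ _ _ _ _ _ _ _
  obtain ⟨hf, hfin, hfree, hdvr⟩ := Pool.Agent.Helper67.Nm.ext1 R M S E
  have := hf; have := hfin; have := hfree; have := hdvr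
  exact ⟨hf, hfin, hfree, hdvr, Pool.Agent.Helper15.Nm.ext2 R M S E⟩

/-- homomorphisms from a lattice lift along surjections -/
theorem lift_lat {A B : Type} [CommGroup A] [CommGroup B] (ρ : A →* B)
    (hρ : Function.Surjective ρ) {g : ℕ} (f : Multiplicative (Lat g) →* B) :
    ∃ v : Multiplicative (Lat g) →* A, ∀ x, ρ (v x) = f x := by
  let f' : Lat g →ₗ[ℤ] Additive B := AddMonoidHom.toIntLinearMap
    { toFun := fun x => Additive.ofMul (f (Multiplicative.ofAdd x))
      map_zero' := by simp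
      map_add' := fun x y => by simp [ofAdd_add] }
  let ρ' : Additive A →ₗ[ℤ] Additive B := (MonoidHom.toAdditive ρ).toIntLinearMap
  have hs : Function.Surjective ρ' := fun b => by
    obtain ⟨a, ha⟩ := hρ (Additive.toMul b)
    exact ⟨Additive.ofMul a, by
      show Additive.ofMul (ρ a) = b
      rw [ha]; rfl⟩
  obtain ⟨h, hh⟩ := Module.projective_lifting_property ρ' f' hs
  refine ⟨{ toFun := fun x => Additive.toMul (h (Multiplicative.toAdd x))
            map_one' := by simp
            map_mul' := fun x y => by simp [toAdd_mul] }, fun x => ?_⟩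
  have h1 := LinearMap.congr_fun hh (Multiplicative.toAdd x)
  exact congrArg Additive.toMul h1

theorem gADJ : ADJ := by
  classical
  intro R M S E _ _ _ _ _ _ _ _ _ _ _ _ _ _ _ _ _ _ _ _ _ g act a hcard u hu hN
  obtain ⟨hfr, hfin, hfree, hdvr, hadic, halg, hloc, hres, -⟩ := extT R M S E
  have hinj : Function.Injective (algebraMap S E) := IsIntegralClosure.algebraMap_injective S R E
  let k := IsLocalRing.ResidueField S
  let j : Sˣ →* Eˣ := Units.map (algebraMap S E : S →* E)
  have hj : Function.Injective j := Units.map_injective hinj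
  let ρ : Sˣ →* kˣ := Units.map (IsLocalRing.residue S : S →* k)
  have hρ : Function.Surjective ρ :=
    IsLocalRing.surjective_units_map_of_local_ringHom (IsLocalRing.residue S)
      IsLocalRing.residue_surjective inferInstance
  have hρ1 : ∀ w : Sˣ, ρ w = 1 → (w : S) - 1 ∈ IsLocalRing.maximalIdeal S := by
    intro w hw
    have h1 : IsLocalRing.residue S (w : S) = 1 := congrArg Units.val hw
    rw [← IsLocalRing.residue_eq_zero_iff, map_sub, h1, map_one, sub_self]
  let st : (E ≃ₐ[M] E) → (S ≃ₐ[R] S) := fun γ => galRestrict R M E S γ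
  have hst : ∀ (γ : E ≃ₐ[M] E) (s : S), algebraMap S E (st γ s) = γ (algebraMap S E s) :=
    fun γ s => algebraMap_galRestrict_apply R γ s
  have hstρ : ∀ (γ : E ≃ₐ[M] E) (s : S),
      IsLocalRing.residue S (st γ s) = IsLocalRing.residue S s := by
    intro γ s
    obtain ⟨r, hr⟩ := hres s
    have h1 : IsLocalRing.residue S s = IsLocalRing.residue S (algebraMap R S r) := by
      rw [← sub_eq_zero, ← map_sub]
      exact (IsLocalRing.residue_eq_zero_iff _).2 hr
    have h2 : st γ (s - algebraMap R S r) ∈ IsLocalRing.maximalIdeal S := by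
      rw [IsLocalRing.mem_maximalIdeal, mem_nonunits_iff] at hr ⊢
      intro h
      exact hr ((MulEquiv.isUnit_map (st γ)).1 h)
    rw [map_sub, AlgEquiv.commutes] at h2
    rw [h1, ← sub_eq_zero, ← map_sub]
    exact (IsLocalRing.residue_eq_zero_iff _).2 h2
  let sU : (E ≃ₐ[M] E) → (Sˣ →* Sˣ) := fun γ => Units.map ((st γ : S ≃ₐ[R] S) : S →* S)
  have hsU : ∀ (γ : E ≃ₐ[M] E) (w : Sˣ), γ • j w = j (sU γ w) := by
    intro γ w
    refine Units.ext ?_
    exact (hst γ (w : S)).symm
  have hsρ : ∀ (γ : E ≃ₐ[M] E) (w : Sˣ), ρ (sU γ w) = ρ w := by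
    intro γ w
    exact Units.ext (hstρ γ (w : S))
  have hu' : ∀ x, u x ∈ j.range := by
    intro x
    obtain ⟨s, hs⟩ := hu x
    exact ⟨s, Units.ext hs.symm⟩
  let uS : Multiplicative (Lat g) →* Sˣ :=
    (MonoidHom.ofInjective hj).symm.toMonoidHom.comp (u.codRestrict j.range hu')
  have huS : ∀ x, j (uS x) = u x := by
    intro x
    have := (MonoidHom.ofInjective hj).apply_symm_apply ⟨u x, hu' x⟩
    exact congrArg Subtype.val this
  let ub : Multiplicative (Lat g) →* kˣ := ρ.comp uS
  have hprod : ∀ x, ∏ γ : (E ≃ₐ[M] E),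
      ub (Multiplicative.ofAdd (act γ⁻¹ (Multiplicative.toAdd x))) = 1 := by
    intro x
    obtain ⟨s, hs1, hs2⟩ := hN x
    have h1 : NT act u x = j (∏ γ : (E ≃ₐ[M] E),
        sU γ (uS (Multiplicative.ofAdd (act γ⁻¹ (Multiplicative.toAdd x))))) := by
      rw [map_prod]
      show (∏ γ : (E ≃ₐ[M] E), tr act γ u) x = _
      rw [MonoidHom.finset_prod_apply]
      refine Finset.prod_congr rfl fun γ _ => ?_
      rw [tr_apply, ← hsU, huS]
    rw [h1] at hs2
    have h2 : ((∏ γ : (E ≃ₐ[M] E),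
        sU γ (uS (Multiplicative.ofAdd (act γ⁻¹ (Multiplicative.toAdd x)))) : Sˣ) : S) = s :=
      hinj hs2
    have h3 : ρ (∏ γ : (E ≃ₐ[M] E),
        sU γ (uS (Multiplicative.ofAdd (act γ⁻¹ (Multiplicative.toAdd x))))) = 1 := by
      refine Units.ext ?_
      show IsLocalRing.residue S (((∏ γ : (E ≃ₐ[M] E),
        sU γ (uS (Multiplicative.ofAdd (act γ⁻¹ (Multiplicative.toAdd x)))) : Sˣ) : S)) = 1
      rw [h2, ← sub_eq_zero, ← map_one (IsLocalRing.residue S), ← map_sub]
      exact (IsLocalRing.residue_eq_zero_iff _).2 hs1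
    rw [map_prod] at h3
    simp only [hsρ] at h3
    exact h3
  -- the `q`-th roots
  set p := ringExpChar (IsLocalRing.ResidueField R) with hp
  have hE0 : ExpChar (IsLocalRing.ResidueField R) p := ringExpChar.expChar _
  have hE1 : ExpChar (IsLocalRing.ResidueField S) p :=
    expChar_of_injective_ringHom (f := IsLocalRing.ResidueField.map (algebraMap R S))
      (RingHom.injective _) p
  have hq0 : 0 < p ^ a := by
    rw [← hcard]
    exact Module.finrank_pos
  have hcard' : Fintype.card (E ≃ₐ[M] E) = p ^ a := by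
    rw [← hcard, ← IsGalois.card_aut_eq_finrank, Nat.card_eq_fintype_card]
  let F : kˣ →* kˣ := powMonoidHom (p ^ a)
  have hF : Function.Bijective F := by
    constructor
    · intro x y hxy
      refine Units.ext ?_
      have h1 : ((x ^ (p ^ a) : kˣ) : k) = ((y ^ (p ^ a) : kˣ) : k) := congrArg Units.val hxy
      rw [Units.val_pow_eq_pow_val, Units.val_pow_eq_pow_val] at h1
      exact iterateFrobenius_inj (IsLocalRing.ResidueField S) p a h1
    · intro x
      obtain ⟨z, hz⟩ := IsAlgClosed.exists_pow_nat_eq (x : k) hq0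
      have hz0 : z ≠ 0 := by
        rintro rfl
        rw [zero_pow hq0.ne'] at hz
        exact x.ne_zero hz.symm
      exact ⟨Units.mk0 z hz0, Units.ext hz⟩
  let Fe : kˣ ≃* kˣ := MulEquiv.ofBijective F hF
  let vb : Multiplicative (Lat g) →* kˣ := Fe.symm.toMonoidHom.comp ub
  have hvb : ∀ x, vb x ^ (p ^ a) = ub x := fun x => Fe.apply_symm_apply (ub x)
  have hvprod : ∀ x, ∏ γ : (E ≃ₐ[M] E),
      vb (Multiplicative.ofAdd (act γ⁻¹ (Multiplicative.toAdd x))) = 1 := by
    intro x
    apply Fe.injective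
    rw [map_prod, map_one, ← hprod x]
    refine Finset.prod_congr rfl fun γ _ => ?_
    exact hvb _
  obtain ⟨v, hv⟩ := lift_lat ρ hρ vb
  let V : Multiplicative (Lat g) →* Eˣ := j.comp v
  refine ⟨u * ∏ γ : (E ≃ₐ[M] E), tr act γ V / V, fun x => ?_, ?_⟩
  · have h1 : (u * ∏ γ : (E ≃ₐ[M] E), tr act γ V / V) x = j (uS x * ∏ γ : (E ≃ₐ[M] E),
        sU γ (v (Multiplicative.ofAdd (act γ⁻¹ (Multiplicative.toAdd x)))) / v x) := by
      rw [MonoidHom.mul_apply, MonoidHom.finset_prod_apply, map_mul, map_prod, huS]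
      congr 1
      refine Finset.prod_congr rfl fun γ _ => ?_
      rw [MonoidHom.div_apply, tr_apply, map_div, ← hsU]
      rfl
    refine ⟨_, hρ1 (uS x * ∏ γ : (E ≃ₐ[M] E),
        sU γ (v (Multiplicative.ofAdd (act γ⁻¹ (Multiplicative.toAdd x)))) / v x) ?_, ?_⟩
    · rw [map_mul, map_prod]
      simp only [map_div, hsρ, hv]
      rw [Finset.prod_div_distrib, hvprod, Finset.prod_const, Finset.card_univ, hcard', hvb]
      show ub x * (1 / ub x) = 1
      simp
    · rw [h1]
      rfl
  · have h1 : ∀ γ : E ≃ₐ[M] E, NTHom act (tr act γ V) = NTHom act V := fun γ => NT_tr act γ V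
    show NTHom act (u * ∏ γ : (E ≃ₐ[M] E), tr act γ V / V) = NTHom act u
    rw [map_mul, map_prod]
    simp only [map_div, h1, div_self', Finset.prod_const_one, mul_one]

end Pool.Agent.Helper64.Tm
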